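import Pool.Agent.R219.LQ.Final

open Set Metric MeasureTheory
open scoped ENNReal

namespace Pool.Agent.Results.MP_c78a2a_an.LipschitzQCRaises

open Pool.Agent.R219.LQ

theorem result (n : ℕ) (hn : 2 ≤ n) :
    ∃ f : EuclideanSpace ℝ (Fin n) → EuclideanSpace ℝ (Fin n),
      IsQuasiconformal f ∧ (∃ L, LipschitzWith L f) ∧
        ∃ E : Set (EuclideanSpace ℝ (Fin n)),
          dimA E ≤ ENNReal.ofReal (1 / 4) ∧ ENNReal.ofReal (1 / 2) ≤ dimA (f '' E) :=
  main n hn

end Pool.Agent.Results.MP_c78a2a_an.LipschitzQCRaises
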